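import Pool.Agent.SWP.Fin

/-!
Bipartite Ramsey numbers: `f(n) ≤ 2^n / n^(1-ε)` for every `ε > 0` and all large `n`.
-/

namespace Pool.Agent.Results.MP_d68c97_co.BelowTwoPower

/-- The `N × N` matrix `A` with entries in `{0, 1}` has an `n × n` rectangle (the entries in `n`
rows and `n` columns) all of whose entries are equal. -/
def HasConstantRectangle (n N : ℕ) (A : Matrix (Fin N) (Fin N) (Fin 2)) : Prop :=
  ∃ R C : Finset (Fin N), R.card = n ∧ C.card = n ∧ ∃ b : Fin 2, ∀ i ∈ R, ∀ j ∈ C, A i j = b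

/-- `f n` is the least `N` such that every `N × N` matrix with entries in `{0, 1}` has an
`n × n` rectangle of zeros or an `n × n` rectangle of ones. -/
noncomputable def f (n : ℕ) : ℕ :=
  sInf {N : ℕ | ∀ A : Matrix (Fin N) (Fin N) (Fin 2), HasConstantRectangle n N A}

theorem large {n N : ℕ} (h : ∀ R : Fin N → Fin N → Prop,
    SWP.Bic R n ∨ SWP.Bic (fun x y => ¬ R x y) n) (A : Matrix (Fin N) (Fin N) (Fin 2)) :
    HasConstantRectangle n N A := by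
  rcases h (fun i j => A i j = 0) with h | h
  · obtain ⟨R, C, hR, hC, hRC⟩ := h
    exact ⟨R, C, hR, hC, 0, hRC⟩
  · obtain ⟨R, C, hR, hC, hRC⟩ := h
    refine ⟨R, C, hR, hC, 1, fun i hi j hj => ?_⟩
    have h1 : ¬ A i j = 0 := hRC i hi j hj
    rcases Fin.exists_fin_two.1 ⟨A i j, rfl⟩ with h2 | h2
    · exact absurd h2 h1
    · exact h2

/-- **Theorem.** For every `ε > 0` there is `n₀` such that for all `n ≥ n₀` every `N × N` matrix
with entries in `{0, 1}`, `N ≥ 2^n / n^(1-ε)`, has an `n × n` rectangle of zeros or an `n × n`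
rectangle of ones; and `f(n) ≤ 2^n / n^(1-ε)`. -/
theorem result (ε : ℝ) (hε : 0 < ε) : ∃ n₀ : ℕ, ∀ n : ℕ, n₀ ≤ n →
    (∀ N : ℕ, (2 : ℝ) ^ n / (n : ℝ) ^ (1 - ε) ≤ N → ∀ A : Matrix (Fin N) (Fin N) (Fin 2),
      HasConstantRectangle n N A) ∧
    (f n : ℝ) ≤ (2 : ℝ) ^ n / (n : ℝ) ^ (1 - ε) := by
  set δ : ℝ := min ε 1 / 2 with hδ
  have hδ0 : 0 < δ := by positivity
  have hδ1 : δ ≤ 1 := by
    have : min ε 1 ≤ 1 := min_le_right _ _
    rw [hδ]; linarith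
  have hδε : δ + min ε 1 / 2 ≤ ε := by
    have : min ε 1 ≤ ε := min_le_left _ _
    rw [hδ]; linarith
  have hδε' : δ ≤ ε := by linarith
  obtain ⟨n1, hn1⟩ := Filter.eventually_atTop.1 (SWP.main_rel δ hδ0 hδ1)
  obtain ⟨n2, hn2⟩ := Filter.eventually_atTop.1 (SWP.logb_pow_small 2 δ hδ0 0)
  refine ⟨max (max n1 n2) 4, fun n hn => ?_⟩
  have h1 : n1 ≤ n := (le_max_left _ _).trans ((le_max_left _ _).trans hn)
  have h2 : n2 ≤ n := (le_max_right _ _).trans ((le_max_left _ _).trans hn)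
  have h4 : 4 ≤ n := (le_max_right _ _).trans hn
  have hn0 : (1 : ℝ) ≤ n := by exact_mod_cast (by omega : 1 ≤ n)
  have hnpos : (0 : ℝ) < n := by linarith
  have hmon : (2 : ℝ) ^ n / (n : ℝ) ^ (1 - δ) ≤ (2 : ℝ) ^ n / (n : ℝ) ^ (1 - ε) := by
    apply div_le_div_of_nonneg_left (by positivity) (by positivity)
    exact Real.rpow_le_rpow_of_exponent_le hn0 (by linarith)
  refine ⟨fun N hN A => large (hn1 n h1 N (hmon.trans hN)) A, ?_⟩
  -- the bound for f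
  have h5 : f n ≤ ⌈(2 : ℝ) ^ n / (n : ℝ) ^ (1 - δ)⌉₊ :=
    Nat.sInf_le (fun A => large (hn1 n h1 _ (Nat.le_ceil _)) A)
  have h6 : (f n : ℝ) ≤ (2 : ℝ) ^ n / (n : ℝ) ^ (1 - δ) + 1 := by
    have h7 : (f n : ℝ) ≤ (⌈(2 : ℝ) ^ n / (n : ℝ) ^ (1 - δ)⌉₊ : ℝ) := by exact_mod_cast h5
    exact h7.trans (Nat.ceil_lt_add_one (by positivity)).le
  have h8 : (2 : ℝ) ≤ (n : ℝ) ^ δ := by
    have := hn2 n h2
    simpa using this
  have h9 : (n : ℝ) ^ δ * ((2 : ℝ) ^ n / (n : ℝ) ^ (1 - δ)) ≤ (2 : ℝ) ^ n / (n : ℝ) ^ (1 - ε) := by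
    have h10 : (n : ℝ) ^ (1 - δ) = (n : ℝ) ^ δ * (n : ℝ) ^ (1 - 2 * δ) := by
      rw [← Real.rpow_add hnpos]; congr 1; ring
    have h11 : (n : ℝ) ^ δ * ((2 : ℝ) ^ n / (n : ℝ) ^ (1 - δ)) =
        (2 : ℝ) ^ n / (n : ℝ) ^ (1 - 2 * δ) := by
      rw [h10]
      have : (n : ℝ) ^ δ ≠ 0 := by positivity
      field_simp
    rw [h11]
    apply div_le_div_of_nonneg_left (by positivity) (by positivity)
    exact Real.rpow_le_rpow_of_exponent_le hn0 (by linarith)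
  have h12 : (1 : ℝ) ≤ (2 : ℝ) ^ n / (n : ℝ) ^ (1 - δ) := by
    rw [le_div_iff₀ (by positivity), one_mul]
    calc (n : ℝ) ^ (1 - δ) ≤ (n : ℝ) ^ (1 : ℝ) :=
          Real.rpow_le_rpow_of_exponent_le hn0 (by linarith)
      _ = n := Real.rpow_one _
      _ ≤ 2 ^ n := by exact_mod_cast (Nat.lt_two_pow_self (n := n)).le
  nlinarith

end Pool.Agent.Results.MP_d68c97_co.BelowTwoPower
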