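import Pool.Agent.Helper48.BipFinal

/-!
Bipartite Ramsey numbers: `f(n) ≤ 512 * 2^n` for every `n`.
-/

namespace Pool.Agent.Results.MP_d68c97_co.NoLogFactor

/-- The `N × N` matrix `A` with entries in `{0, 1}` has an `n × n` rectangle (the entries in `n`
rows and `n` columns) all of whose entries are equal. -/
def HasConstantRectangle (n N : ℕ) (A : Matrix (Fin N) (Fin N) (Fin 2)) : Prop :=
  ∃ R C : Finset (Fin N), R.card = n ∧ C.card = n ∧ ∃ b : Fin 2, ∀ i ∈ R, ∀ j ∈ C, A i j = b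

/-- `f n` is the least `N` such that every `N × N` matrix with entries in `{0, 1}` has an
`n × n` rectangle of zeros or an `n × n` rectangle of ones. -/
noncomputable def f (n : ℕ) : ℕ :=
  sInf {N : ℕ | ∀ A : Matrix (Fin N) (Fin N) (Fin 2), HasConstantRectangle n N A}

theorem large (n N : ℕ) (hN : 512 * 2 ^ n ≤ N) (A : Matrix (Fin N) (Fin N) (Fin 2)) :
    HasConstantRectangle n N A := by
  have hN' : 2 ^ (n + 9) ≤ N := by
    rw [pow_add]
    calc 2 ^ n * 2 ^ 9 = 512 * 2 ^ n := by norm_num [mul_comm]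
      _ ≤ N := hN
  rcases Pool.Agent.Helper48.Bip.ramsey hN' (fun i j => A i j = 0) with h | h
  · obtain ⟨R, C, hR, hC, hRC⟩ := h
    exact ⟨R, C, hR, hC, 0, hRC⟩
  · obtain ⟨R, C, hR, hC, hRC⟩ := h
    refine ⟨R, C, hR, hC, 1, fun i hi j hj => ?_⟩
    have := hRC i hi j hj
    generalize A i j = a at this
    fin_cases a
    · exact absurd rfl this
    · rfl

/-- **Theorem.** `f(n) ≤ 512 * 2^n` for every `n`; in fact every `N × N` matrix with entries in
`{0, 1}`, `N ≥ 512 * 2^n`, has an `n × n` rectangle of zeros or an `n × n` rectangle of ones. -/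
theorem result (n : ℕ) :
    (∀ N : ℕ, 512 * 2 ^ n ≤ N → ∀ A : Matrix (Fin N) (Fin N) (Fin 2),
      HasConstantRectangle n N A) ∧ f n ≤ 512 * 2 ^ n :=
  ⟨fun N hN A => large n N hN A, Nat.sInf_le (fun A => large n _ le_rfl A)⟩

end Pool.Agent.Results.MP_d68c97_co.NoLogFactor
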