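import Mathlib
import Pool.Agent.Helper37.NoisyB.Final

/-!
# Bipartite Ramsey numbers with noise

`BN q n` is the least `N` such that every random `N × N` matrix with independent entries in
`{0, 1}`, every entry being `1` with probability in `[q, 1 - q]`, has an `n × n` rectangle of
equal entries with probability at least one half.  For `q = 0` it is `f n`.
-/

namespace Pool.Agent.Results.MP_d68c97_co.NoisyBipartite

open Filter Pool.Agent.Helper37.NoisyB

theorem result :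
    -- noise rate zero is the bipartite Ramsey number `f n`
    (∀ n : ℕ, BN 0 n = sInf {N : ℕ | ∀ A : Fin N → Fin N → Bool, HasRect A n}) ∧
    -- exact asymptotics for noise rates above `1 - 1 / √2`
    (∀ q0 : ℝ, 1 - 1 / Real.sqrt 2 < q0 → ∀ q : ℕ → ℝ, (∀ n, q0 ≤ q n) → (∀ n, q n ≤ 1 / 2) →
      Tendsto (fun n : ℕ => (BN (q n) n : ℝ) / (n * (2 : ℝ) ^ ((n : ℝ) / 2))) atTop
        (nhds (1 / Real.exp 1))) ∧
    -- the same with high probability
    (∀ q0 ε : ℝ, 1 - 1 / Real.sqrt 2 < q0 → 0 < ε → ∀ᶠ n : ℕ in atTop, ∀ q : ℝ,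
      q0 ≤ q → q ≤ 1 / 2 → ∀ N : ℕ,
        (1 + ε) * (n / Real.exp 1) * Real.sqrt 2 ^ n ≤ N → HomRect q ε N n) ∧
    -- every positive noise rate
    (∀ q ε : ℝ, 0 < q → q ≤ 1 / 2 → 0 < ε → ∀ᶠ n : ℕ in atTop, ∀ N : ℕ,
      (max (Real.sqrt 2) (2 * (1 - q)) + ε) ^ n ≤ N → HomRect q ε N n) :=
  ⟨nb_BN_zero, fun _ hq0 q hq hq1 => nb_limit hq0 q hq hq1,
    fun _ _ hq0 hε => nb_partA hq0 hε, fun _ _ hq0 hq1 hε => nb_partB hq0 hq1 hε⟩

end Pool.Agent.Results.MP_d68c97_co.NoisyBipartite
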