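import Mathlib
import Pool.Agent.LCB.Final

/-!
# Bipartite Ramsey numbers for random matrices with repeated rows of probabilities

`FT K n` is the least `N` such that every random `N × N` matrix with independent entries in
`{0, 1}`, whose rows of probabilities have at most `K` types, has an `n × n` rectangle of equal
entries with probability at least one half.  `F n` is the bipartite Ramsey number `f n`.
-/

namespace Pool.Agent.Results.MP_d68c97_co.RepeatedRows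

open Filter Pool.Agent.LCB

theorem result :
    -- at least `f n` types: the deterministic problem; fewer types: a lower bound
    (∀ n K : ℕ, (F n ≤ K → FT K n = F n) ∧ (K < F n → K < FT K n)) ∧
    -- few types: exact asymptotics
    (∀ K : ℕ → ℕ, (∀ᶠ n : ℕ in atTop, 1 ≤ K n) →
      (∀ᶠ n : ℕ in atTop, (n : ℝ) ^ 18 * K n ≤ (2 : ℝ) ^ ((n : ℝ) / 2)) →
      Tendsto (fun n : ℕ => (FT (K n) n : ℝ) / (n * (2 : ℝ) ^ ((n : ℝ) / 2))) atTop
        (nhds (1 / Real.exp 1))) ∧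
    -- bounds for all numbers of types
    (∀ ε : ℝ, 0 < ε → ε ≤ 1 / 2 → ∃ D : ℕ, ∀ᶠ n : ℕ in atTop, ∀ K : ℕ, 1 ≤ K →
      (1 - ε) * (n / Real.exp 1) * Real.sqrt 2 ^ n ≤ FT K n ∧
      (FT K n : ℝ) ≤ max ((1 + ε) * (n / Real.exp 1) * Real.sqrt 2 ^ n) ((n : ℝ) ^ 18 * K) + 1 ∧
      (FT K n : ℝ) ≤ max ((Real.sqrt 2 + ε) ^ n) (D * K) + 1 ∧
      (FT K n : ℝ) ≤ max ((48 / 25) ^ n) ((1 + ε) * K) + 1) ∧
    -- the upper bounds with high probability
    (∀ ε : ℝ, 0 < ε → ∃ D : ℕ, ∀ᶠ n : ℕ in atTop, ∀ K N : ℕ,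
      ((1 + ε) * (n / Real.exp 1) * Real.sqrt 2 ^ n ≤ N ∧ n ^ 18 * K ≤ N) ∨
      ((Real.sqrt 2 + ε) ^ n ≤ N ∧ D * K ≤ N) ∨
      ((48 / 25 : ℝ) ^ n ≤ N ∧ (1 + ε) * (K : ℝ) ≤ N) → HomT K ε N n) :=
  ⟨fun _ _ => ⟨lc_FT_eq, lc_FT_gt⟩, fun K hK hK2 => lc_limit K hK hK2,
    fun _ hε hε1 => lc_two_sided hε hε1, fun _ hε => lc_whp hε⟩

end Pool.Agent.Results.MP_d68c97_co.RepeatedRows
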